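import Mathlib
import Pool.Agent.Helper41.SerreInv
import Pool.Agent.Helper41.QuarticSystem

/-!
Let `X = {f = 0} ⊂ ℙ⁴` be a quartic threefold and let `Ku(X) = 𝒪_X^⊥ ⊂ D^b(X)` be its
Kuznetsov component. No stability condition on `Ku(X)` whose central charge is the restriction
of the (rotated) tilt charge `Z^μ_{s,q}`, `q > s²/2`, is Serre-invariant.

Here `QCoh(X)` is the category `QGr(S/f)` of graded `S/f`-modules modulo torsion modules
(`S = ℂ[x₀,…,x₄]`), and `D^b(X)` is the full subcategory of its derived category of complexes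
with bounded coherent cohomology.
-/

open CategoryTheory Limits Pretriangulated Pool.Agent.Helper41

universe w

namespace Pool.Agent.Results.MP_d03fa8_ag.NoSerreInvariant

theorem result {f : MvPolynomial (Fin 5) ℂ} (hf : f.IsHomogeneous 4) (hf0 : f ≠ 0)
    [HasDerivedCategory.{w} (QGr f)] (s q μ : ℝ) (hsq : s ^ 2 / 2 < q)
    (S : SerreFunctor (KuX hf)) (σ : StabilityCondition (KuX hf))
    (hσ : HasTiltChargeX hf s q μ σ) : ¬ IsSerreInvariant S σ :=
  not_serreInvariant (twistO hf) (isQuarticSystem_twistO hf hf0) s q μ hsq S σ hσ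

end Pool.Agent.Results.MP_d03fa8_ag.NoSerreInvariant
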